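import Pool.Agent.Helper227.Force4
import Pool.Agent.Helper227.KT2

set_option autoImplicit false

namespace Pool.Agent.Y785.LR

open Pool.Agent.Helper227
open MeasureTheory Encodable
open scoped ENNReal

/-- `A ≤_LR B`: every set that is Martin-Löf random relative to `B` is Martin-Löf random
relative to `A`. -/
def LRle (A B : ℕ → Bool) : Prop := ∀ X : ℕ → Bool, MLR B X → MLR A X

/-- the string coded by a number -/
def str (c : ℕ) : List Bool := (decode₂ (List Bool) c).getD []

theorem str_encode (σ : List Bool) : str (encode σ) = σ := by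
  unfold str
  rw [encodek₂]
  rfl

/-- bitwise sum of a string and another one -/
def xr (σ α : List Bool) : List Bool :=
  (List.range σ.length).map fun i => xor (σ.getD i false) (α.getD i false)

theorem xr_length (σ α : List Bool) : (xr σ α).length = σ.length := by simp [xr]

theorem xr_take (σ α : List Bool) : xr σ (α.take σ.length) = xr σ α := by
  unfold xr
  refine List.map_congr_left fun i hi => ?_
  rw [List.mem_range] at hi
  congr 1
  by_cases h : i < α.length
  · rw [List.getD_eq_getElem _ _ (by rw [List.length_take]; omega), List.getElem_take,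
      List.getD_eq_getElem _ _ h]
  · rw [List.getD_eq_default _ _ (by rw [List.length_take]; omega),
      List.getD_eq_default _ _ (by omega)]

theorem xr_pre (σ : List Bool) (T : ℕ → Bool) {s : ℕ} (hs : σ.length ≤ s) :
    xr σ (pre T s) = xr σ (pre T σ.length) := by
  rw [← xr_take, take_pre _ _ _ hs]

theorem xr_xr (σ α : List Bool) : xr (xr σ α) α = σ := by
  refine List.ext_getElem (by simp [xr_length]) fun i h1 h2 => ?_
  unfold xr
  simp only [List.getElem_map, List.getElem_range]
  rw [List.getD_eq_getElem _ _ (by simpa using h2)]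
  simp only [List.getElem_map, List.getElem_range]
  rw [List.getD_eq_getElem _ _ h2]
  cases σ[i] <;> cases α.getD i false <;> rfl

/-- the column permutation given by a string -/
def colm (α : List Bool) (c : ℕ) : ℕ :=
  if encode (str c) = c then encode (xr (str c) α) else c

/-- the column permutation given by `T` -/
def iT (T : ℕ → Bool) (c : ℕ) : ℕ := colm (pre T (str c).length) c

theorem iT_encode (T : ℕ → Bool) (σ : List Bool) :
    iT T (encode σ) = encode (xr σ (pre T σ.length)) := by
  unfold iT colm
  rw [str_encode, if_pos rfl]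

theorem iT_iT (T : ℕ → Bool) (c : ℕ) : iT T (iT T c) = c := by
  by_cases h : encode (str c) = c
  · obtain ⟨σ, rfl⟩ : ∃ σ : List Bool, c = encode σ := ⟨_, h.symm⟩
    rw [iT_encode, iT_encode, xr_length, xr_xr]
  · have h1 : iT T c = c := by
      unfold iT colm
      rw [if_neg h]
    rw [h1, h1]

theorem colm_pre (T : ℕ → Bool) {c s : ℕ} (h : (str c).length ≤ s) :
    colm (pre T s) c = iT T c := by
  unfold iT colm
  rw [xr_pre _ _ h]

theorem primrec_str : Primrec str := by
  unfold str
  exact Primrec.option_getD.comp Primrec.decode₂ (Primrec.const [])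

theorem primrec_xr {α : Type*} [Primcodable α] {f g : α → List Bool} (hf : Primrec f)
    (hg : Primrec g) : Primrec fun a => xr (f a) (g a) := by
  unfold xr
  refine Primrec.list_map (Primrec.list_range.comp (Primrec.list_length.comp hf)) ?_
  refine (Primrec.dom_finite (fun p : Bool × Bool => xor p.1 p.2)).comp (Primrec.pair ?_ ?_)
  · exact (Primrec.list_getD false).comp (hf.comp Primrec.fst) Primrec.snd
  · exact (Primrec.list_getD false).comp (hg.comp Primrec.fst) Primrec.snd

theorem primrec_colm {α : Type*} [Primcodable α] {f : α → List Bool} {g : α → ℕ}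
    (hf : Primrec f) (hg : Primrec g) : Primrec fun a => colm (f a) (g a) := by
  unfold colm
  refine Primrec.ite ?_ ?_ hg
  · exact Primrec.eq.comp (Primrec.encode.comp (primrec_str.comp hg)) hg
  · exact Primrec.encode.comp (primrec_xr (primrec_str.comp hg) hf)

/-- the permutation of the positions given by `T` -/
def pT (T : ℕ → Bool) (m : ℕ) : ℕ := Nat.pair (iT T (Nat.unpair m).1) (Nat.unpair m).2

theorem pT_pT (T : ℕ → Bool) (m : ℕ) : pT T (pT T m) = m := by
  unfold pT
  rw [Nat.unpair_pair]
  simp only
  rw [iT_iT, Nat.pair_unpair]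

theorem pT_injective (T : ℕ → Bool) : Function.Injective (pT T) :=
  (show Function.Involutive (pT T) from pT_pT T).injective

theorem mlr_pT {T B : ℕ → Bool} (h : MLR T B) : MLR T (fun m => B (pT T m)) := by
  refine h.select (pT_injective T)
    (fun α m => Nat.pair (colm α (Nat.unpair m).1) (Nat.unpair m).2)
    (fun α m => (str (Nat.unpair m).1).length ≤ α.length) ?_ ?_ ?_ ?_
  · exact Primrec₂.natPair.comp (primrec_colm Primrec.fst
      (Primrec.fst.comp (Primrec.unpair.comp Primrec.snd)))
      (Primrec.snd.comp (Primrec.unpair.comp Primrec.snd))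
  · exact Primrec.nat_le.comp (Primrec.list_length.comp (primrec_str.comp
      (Primrec.fst.comp (Primrec.unpair.comp Primrec.snd))))
      (Primrec.list_length.comp Primrec.fst)
  · intro s i h1
    rw [length_pre] at h1
    simp only [pT]
    rw [colm_pre _ h1]
  · intro i
    refine ⟨(str (Nat.unpair i).1).length, fun s hs => ?_⟩
    simpa using hs

theorem rd_append {σ ρ : List Bool} {g : ℕ → ℕ} {t : ℕ} (h : ∀ i < t, g i < σ.length) :
    rd (σ ++ ρ) g t = rd σ g t := by
  unfold rd
  refine List.map_congr_left fun i hi => ?_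
  rw [List.mem_range] at hi
  rw [List.getD_append _ _ _ _ (h i hi)]

theorem tLe_pT (T B : ℕ → Bool) : TLe (fun m => B (pT T m)) (join T B) := by
  rw [tLe_iff]
  refine ⟨fun x => 2 * (str (Nat.unpair x.2.1).1).length ≤ x.1.length ∧
    x.1[2 * Nat.pair (colm (rd x.1 (fun i => 2 * i) (str (Nat.unpair x.2.1).1).length)
      (Nat.unpair x.2.1).1) (Nat.unpair x.2.1).2 + 1]? = some x.2.2, S1.of_prim ?_, ?_, ?_⟩
  · have e1 : Primrec fun x : List Bool × ℕ × Bool => (Nat.unpair x.2.1).1 :=
      Primrec.fst.comp (Primrec.unpair.comp (Primrec.fst.comp Primrec.snd))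
    have e2 : Primrec fun x : List Bool × ℕ × Bool => (Nat.unpair x.2.1).2 :=
      Primrec.snd.comp (Primrec.unpair.comp (Primrec.fst.comp Primrec.snd))
    have e3 : Primrec fun x : List Bool × ℕ × Bool => (str (Nat.unpair x.2.1).1).length :=
      Primrec.list_length.comp (primrec_str.comp e1)
    refine PrimrecPred.and ?_ ?_
    · exact Primrec.nat_le.comp (Primrec.nat_mul.comp (Primrec.const 2) e3)
        (Primrec.list_length.comp Primrec.fst)
    · refine Primrec.eq.comp (Primrec.list_getElem?.comp Primrec.fst (Primrec.succ.comp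
        (Primrec.nat_mul.comp (Primrec.const 2) (Primrec₂.natPair.comp (primrec_colm ?_ e1)
        e2)))) (Primrec.option_some.comp (Primrec.snd.comp Primrec.snd))
      exact primrec_rd (g := fun _ i => 2 * i) Primrec.fst
        (Primrec.nat_mul.comp (Primrec.const 2) Primrec.snd) e3
  · rintro σ τ n b ⟨ρ, rfl⟩ ⟨h1, h2⟩
    simp only at h1 h2 ⊢
    refine ⟨by rw [List.length_append]; omega, ?_⟩
    rw [rd_append (fun i hi => by omega)]
    rw [List.getElem?_append_left]
    · exact h2
    · by_contra hc
      rw [List.getElem?_eq_none (by omega)] at h2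
      cases h2
  · intro n b
    have key : ∀ s, 2 * (str (Nat.unpair n).1).length ≤ s →
        rd (pre (join T B) s) (fun i => 2 * i) (str (Nat.unpair n).1).length =
          pre T (str (Nat.unpair n).1).length := by
      intro s hs
      rw [rd_pre (fun i hi => by omega)]
      simp only [join_even]
    constructor
    · intro h
      refine ⟨max (2 * (str (Nat.unpair n).1).length) (2 * pT T n + 1 + 1), by simp, ?_⟩
      simp only
      rw [key _ (le_max_left _ _)]
      change (pre (join T B) _)[2 * pT T n + 1]? = some b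
      rw [pre_getElem? _ _ _ (by omega), join_odd, h]
    · rintro ⟨s, h1, h2⟩
      simp only [length_pre] at h1 h2
      rw [key s h1] at h2
      change (pre (join T B) s)[2 * pT T n + 1]? = some b at h2
      by_cases hlt : 2 * pT T n + 1 < s
      · rw [pre_getElem? _ _ _ hlt, join_odd] at h2
        simpa using h2
      · rw [pre_getElem?_none _ _ _ (by omega)] at h2
        cases h2

theorem zero_tLe (D : ℕ → Bool) : TLe (fun _ => false) D := by
  have h1 : Computable (fun _ : ℕ => (false : Bool).toNat) := Computable.const _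
  exact Partrec.turingReducible (f := chi (fun _ => false)) h1.partrec

/-- if `T` is low for randomness, then `A ≤_T T ⊕ B` implies `A ≤_LR B` for random `B` -/
theorem lr_of_tLe {T : ℕ → Bool} (hlow : ∀ X, MLR (fun _ => false) X → MLR T X) {A B : ℕ → Bool}
    (hB : MLR (fun _ => false) B) (h : TLe A (join T B)) : LRle A B := by
  intro X hX
  have h1 : MLR (join (fun _ => false) B) X :=
    hX.mono (join_tLe (zero_tLe B) (TLe.refl B))
  have h2 : MLR (fun _ => false) (join B X) := hB.join_of h1
  have h3 : MLR T (join B X) := hlow _ h2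
  exact h3.right_rel.mono h

theorem ct_succ_le (C : ℕ → Bool) (q : ℕ) : ct (pre C (q + 1)) = ct (pre C q) + (C q).toNat := by
  rw [pre_succ, ct_append]
  cases h : C q <;> simp [ct]

/-- positions of the columns: the `k`-th element of `C` -/
theorem exists_cols {C : ℕ → Bool} (hinf : ∀ n, ∃ p, C p = true ∧ n < ct (pre C (p + 1))) :
    ∃ e : ℕ → ℕ, TuringReducible (fun k => Part.some (e k)) (chi C) ∧
      ∀ p, C p = true → e (ct (pre C (p + 1))) = encode (List.replicate p false) := by
  classical
  have hmono : ∀ p q, C q = true → p < q → ct (pre C (p + 1)) < ct (pre C (q + 1)) := by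
    intro p q hq hlt
    have h1 : ct (pre C (p + 1)) ≤ ct (pre C q) := ct_prefix (pre_prefix C (by omega))
    rw [ct_succ_le C q, hq]
    simp only [Bool.toNat_true]
    omega
  have huniq : ∀ p q, C p = true → C q = true → ct (pre C (p + 1)) = ct (pre C (q + 1)) →
      p = q := by
    intro p q hp hq h
    rcases lt_trichotomy p q with h1 | h1 | h1
    · exact absurd h (hmono p q hq h1).ne
    · exact h1
    · exact absurd h.symm (hmono q p hp h1).ne
  have hex : ∀ k, 0 < k → ∃ q, C q = true ∧ ct (pre C (q + 1)) = k := by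
    intro k hk
    have h1 : ∃ q, k ≤ ct (pre C (q + 1)) := by
      obtain ⟨p, -, hp⟩ := hinf k
      exact ⟨p, hp.le⟩
    have hs := Nat.find_spec h1
    have hm : ∀ r < Nat.find h1, ct (pre C (r + 1)) < k := fun r hr =>
      not_le.mp (Nat.find_min h1 hr)
    have h2 : ct (pre C (Nat.find h1)) < k := by
      rcases Nat.eq_zero_or_pos (Nat.find h1) with h0 | h0
      · rw [h0]
        simpa [pre, ct] using hk
      · have := hm (Nat.find h1 - 1) (by omega)
        rwa [Nat.sub_add_cancel h0] at this
    rw [ct_succ_le] at hs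
    refine ⟨Nat.find h1, ?_, ?_⟩
    · cases hc : C (Nat.find h1)
      · rw [hc] at hs
        simp only [Bool.toNat_false] at hs
        omega
      · rfl
    · rw [ct_succ_le]
      have : (C (Nat.find h1)).toNat ≤ 1 := by cases C (Nat.find h1) <;> simp
      omega
  have hex' : ∀ k, ∃ q, 0 < k → C q = true ∧ ct (pre C (q + 1)) = k := by
    intro k
    rcases Nat.eq_zero_or_pos k with h0 | h0
    · exact ⟨0, fun h => by omega⟩
    · obtain ⟨q, hq⟩ := hex k h0
      exact ⟨q, fun _ => hq⟩
  choose f hf using hex'
  let e : ℕ → ℕ := fun k => if k = 0 then encode ([] : List Bool) else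
    encode (List.replicate (f k) false)
  have he : ∀ p, C p = true → e (ct (pre C (p + 1))) = encode (List.replicate p false) := by
    intro p hp
    have h0 : ct (pre C (p + 1)) ≠ 0 := by
      rw [ct_succ_le, hp]
      simp
    have h1 := hf (ct (pre C (p + 1))) (Nat.pos_of_ne_zero h0)
    have h2 := huniq _ _ h1.1 hp h1.2
    simp only [e, if_neg h0, h2]
  refine ⟨e, ?_, he⟩
  have hG : S1 fun x : List Bool × ℕ × ℕ => (x.2.1 = 0 ∧ x.2.2 = encode ([] : List Bool)) ∨
      ∃ q : ℕ, ((q < x.1.length ∧ x.1.getD q false = true) ∧ (ct (x.1.take (q + 1)) = x.2.1 ∧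
        x.2.2 = encode (List.replicate q false))) := by
    refine S1.or (S1.of_prim (PrimrecPred.and ?_ ?_)) (S1.ex (S1.of_prim
      (PrimrecPred.and (PrimrecPred.and ?_ ?_) (PrimrecPred.and ?_ ?_))))
    · exact Primrec.eq.comp (Primrec.fst.comp Primrec.snd) (Primrec.const 0)
    · exact Primrec.eq.comp (Primrec.snd.comp Primrec.snd) (Primrec.const _)
    · exact Primrec.nat_lt.comp Primrec.snd (Primrec.list_length.comp
        (Primrec.fst.comp Primrec.fst))
    · exact Primrec.eq.comp ((Primrec.list_getD false).comp (Primrec.fst.comp Primrec.fst)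
        Primrec.snd) (Primrec.const true)
    · exact Primrec.eq.comp (primrec_ct.comp (Primrec.list_take.comp
        (Primrec.succ.comp Primrec.snd) (Primrec.fst.comp Primrec.fst)))
        (Primrec.fst.comp (Primrec.snd.comp Primrec.fst))
    · refine Primrec.eq.comp (Primrec.snd.comp (Primrec.snd.comp Primrec.fst))
        (Primrec.encode.comp ?_)
      have h5 : Primrec fun n : ℕ => (List.range n).map (fun _ => false) :=
        Primrec.list_map Primrec.list_range (Primrec.const false).to₂
      refine (h5.comp Primrec.snd).of_eq fun x => ?_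
      rw [List.map_const']
      simp
  refine RecursiveIn.iff_nat.2 (recIn_of_graph hG ?_)
  intro n m
  rw [Part.mem_some_iff]
  constructor
  · rintro rfl
    by_cases h0 : n = 0
    · refine ⟨0, Or.inl ⟨h0, ?_⟩⟩
      simp [e, h0]
    · have h1 := hf n (Nat.pos_of_ne_zero h0)
      refine ⟨f n + 1, Or.inr ⟨f n, ⟨by simp, ?_⟩, ?_, ?_⟩⟩
      · simp only
        rw [pre_getD _ _ _ _ (Nat.lt_succ_self _)]
        exact h1.1
      · simp only
        rw [take_pre _ _ _ le_rfl]
        exact h1.2
      · simp only [e, if_neg h0]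
  · rintro ⟨s, ⟨h1, h2⟩ | ⟨q, ⟨h1, h2⟩, h3, h4⟩⟩
    · simp only at h1 h2
      simp only [e, h1, if_pos, h2]
    · simp only [length_pre] at h1 h2 h3 h4
      rw [pre_getD _ _ _ _ h1] at h2
      rw [take_pre _ _ _ (by omega)] at h3
      rw [h4, ← he q h2, h3]

theorem enc_rep_inj : Function.Injective fun p : ℕ => encode (List.replicate p false) := by
  intro p q h
  have := congrArg List.length (encode_injective h)
  simpa using this

/-- The main construction. -/
theorem main {T : ℕ → Bool} (hT : ¬ Computable T)
    (hlow : ∀ X, MLR (fun _ => false) X → MLR T X) :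
    ∃ A B C : ℕ → Bool, MLR (fun _ => false) A ∧ MLR (fun _ => false) B ∧
      TLe A (join T B) ∧ TLe B (join T A) ∧ LRle A B ∧ LRle B A ∧ MLR C B ∧ ¬ MLR C A ∧
      ∃ e : ℕ → ℕ, TuringReducible (fun k => Part.some (e k)) (chi C) ∧
        ∀ n, ∃ k, n < k ∧ ∀ l < k, A (Nat.pair (e k) l) = false := by
  obtain ⟨B, C, hCB, hz⟩ := exists_generic hT
  have hB0 : MLR (fun _ => false) B := hCB.mono (zero_tLe C)
  have hBT : MLR T B := hlow B hB0
  have hA0 : MLR (fun _ => false) (fun m => B (pT T m)) := (mlr_pT hBT).mono (zero_tLe T)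
  have hAB := tLe_pT T B
  have hBA : TLe B (join T (fun m => B (pT T m))) := by
    have h := tLe_pT T (fun m => B (pT T m))
    have h2 : (fun m => (fun m => B (pT T m)) (pT T m)) = B := by
      funext m
      simp only
      rw [pT_pT]
    rwa [h2] at h
  -- the columns with zeros
  have hzero : ∀ p, ∀ l, (fun m => B (pT T m)) (Nat.pair (encode (List.replicate p false)) l) =
      B (Nat.pair (encode (pre T p)) l) := by
    intro p l
    simp only [pT, Nat.unpair_pair]
    rw [iT_encode]
    congr 3
    refine List.ext_getElem (by simp [xr_length]) fun i h1 h2 => ?_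
    simp only [length_pre] at h2
    unfold xr
    simp only [List.getElem_map, List.getElem_range, List.length_replicate]
    rw [getElem_pre, pre_getD _ _ _ _ h2, List.getD_eq_getElem _ _ (by simpa using h2),
      List.getElem_replicate]
    simp
  obtain ⟨e, he, he2⟩ := exists_cols (C := C) (fun n => by
    obtain ⟨p, h1, h2, -⟩ := hz n
    exact ⟨p, h1, h2⟩)
  refine ⟨fun m => B (pT T m), B, C, hA0, hB0, hAB, hBA, lr_of_tLe hlow hB0 hAB,
    lr_of_tLe hlow hA0 hBA, hCB, ?_, e, he, ?_⟩
  · intro hA
    have h1 := hA.comp (j := fun m => Nat.pair (encode (List.replicate (Nat.unpair m).1 false))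
      (Nat.unpair m).2) (by
        intro m m' h
        obtain ⟨h1, h2⟩ := Nat.pair_eq_pair.1 h
        have h3 := enc_rep_inj h1
        have h4 : Nat.unpair m = Nat.unpair m' := Prod.ext h3 h2
        rw [← Nat.pair_unpair m, ← Nat.pair_unpair m', h4]) (by
        refine Primrec₂.natPair.comp (Primrec.encode.comp ?_)
          (Primrec.snd.comp Primrec.unpair)
        have h5 : Primrec fun n : ℕ => (List.range n).map (fun _ => false) :=
          Primrec.list_map Primrec.list_range (Primrec.const false).to₂
        refine (h5.comp (Primrec.fst.comp Primrec.unpair)).of_eq fun x => ?_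
        rw [List.map_const']
        simp)
    refine not_mlr_of_zeros (C := C) (fun n => ?_) h1
    obtain ⟨p, h2, h3, h4⟩ := hz n
    refine ⟨p, h2, h3, fun l hl => ?_⟩
    simp only [Nat.unpair_pair]
    have := hzero p l
    simp only at this
    rw [this]
    exact h4 l hl
  · intro n
    obtain ⟨p, h2, h3, h4⟩ := hz n
    refine ⟨_, h3, fun l hl => ?_⟩
    rw [he2 p h2, hzero]
    exact h4 l hl

end Pool.Agent.Y785.LR
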